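import Pool.Agent.Q1.SL.UnifA

set_option autoImplicit false

/-!
# Special sets of bounded complexity of affine varieties

Let `X` be an arbitrary closed subset of the complex affine `n`-space, given by a set `S` of
polynomials. For numbers `s`, `r`, `e` we consider all nonconstant curves `f : Ω → X`, on all domains
`Ω` of the plane (for instance entire curves, `Ω = ℂ`, or curves on the punctured disc with an
essential singularity), with coordinates given by `s` iterated linear differential equations with
matrices of size `r` and polynomials of degree at most `e` (`DVec Ω s r e f`): there are invertible
matrices `X_1(z), ..., X_s(z)` of size `r` of analytic functions on `Ω` such that the entries of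
`X_l'(z) X_l(z)⁻¹` are values of polynomials with constant coefficients, of degree at most `e` in
each variable, at the entries of `X_i(z)`, `X_i(z)⁻¹`, `i < l`, and the coordinates of `f(z)` are
values of such polynomials at the entries of all these matrices. Let `Sp(s, r, e)` be the Zariski
closure of the union of the images of these curves (the special set of this complexity), and let
`Lau(d)` be the Zariski closure of the union of the images of the nonconstant morphisms
`t ↦ p(t) / t ^ m` of the punctured line into `X` with `m` and the degrees of the `p_j` at most `d`.

Then every special set `Sp(s, r, e)` is contained in one of the sets `Lau(d)`, and `Lau(d)` is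
contained in `Sp(1, 1, d)` (it is already the closure of the union of the images of the entire
curves `p(exp z) / exp(z) ^ m`). The two increasing families of closed subsets are cofinal. In
particular one of the special sets `Sp(s, r, e)` is equal to `X` if and only if for some `d` the
images of the punctured line of degree at most `d` are dense in `X`.

(A polynomial `G` vanishes on `Lau(d)` if and only if `LauIn S G d`, and on `Sp(s, r, e)` if and only
if `OdeInA S G s r e`.)
-/

namespace Pool.Agent.Results.MP_160ed4_ag.AffineSpecialSets

open MvPolynomial Pool.Agent.Q1.SL

theorem result {n : ℕ} (S : Set (MvPolynomial (Fin n) ℂ)) :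
    (∀ s r e : ℕ, ∃ d : ℕ, ∀ G : MvPolynomial (Fin n) ℂ, LauIn S G d → OdeInA S G s r e) ∧
      ∀ (d : ℕ) (G : MvPolynomial (Fin n) ℂ), OdeInA S G 1 1 d → LauIn S G d :=
  ⟨ode_specialA S, fun _ _ => lauIn_of_odeInA⟩

end Pool.Agent.Results.MP_160ed4_ag.AffineSpecialSets
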