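import Pool.Agent.Q1.SL.Unif

set_option autoImplicit false

/-!
# Special sets of bounded complexity of projective varieties

Let `X` be an arbitrary closed subset of the complex projective `n`-space, given by a set `S` of
forms. For numbers `s`, `r`, `e` we consider all nonconstant curves `f : Ω → X`, on all domains `Ω`
of the plane (for instance entire curves, `Ω = ℂ`, or curves on the punctured disc), with
homogeneous coordinates given by `s` iterated linear differential equations with matrices of size
`r` and polynomials of degree at most `e` (`DVec Ω s r e f`): there are invertible matrices
`X_1(z), ..., X_s(z)` of size `r` of analytic functions on `Ω` such that the entries of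
`X_l'(z) X_l(z)⁻¹` are values of polynomials with constant coefficients, of degree at most `e` in
each variable, at the entries of `X_i(z)`, `X_i(z)⁻¹`, `i < l`, and the coordinates of `f(z)` are
values of such polynomials at the entries of all these matrices. Let `Sp(s, r, e)` be the Zariski
closure of the union of the images of these curves (the special set of this complexity), and let
`Rat(d)` be the Zariski closure of the union of the nonconstant rational curves of degree at most `d`
on `X`.

Then every special set `Sp(s, r, e)` is contained in one of the sets `Rat(d)`, and `Rat(d)` is
contained in `Sp(1, 2, d)` (it is already the closure of the union of the entire curves with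
polynomial coordinates of degree at most `d`). The two increasing families of closed subsets are
cofinal. In particular one of the special sets `Sp(s, r, e)` is equal to `X` if and only if for some
`d` the rational curves of degree at most `d` are dense in `X`.

(A form `G` vanishes on `Rat(d)` if and only if `RatIn S G d`, and on `Sp(s, r, e)` if and only if
`OdeIn S G s r e`.)
-/

namespace Pool.Agent.Results.MP_160ed4_ag.BoundedSpecialSets

open MvPolynomial Pool.Agent.Q1.SL

theorem result {n : ℕ} (S : Set (MvPolynomial (Fin (n + 1)) ℂ))
    (hS : ∀ F ∈ S, ∃ e, F.IsHomogeneous e) :
    (∀ s r e : ℕ, ∃ d : ℕ, ∀ G : MvPolynomial (Fin (n + 1)) ℂ, (∃ e, G.IsHomogeneous e) →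
      RatIn S G d → OdeIn S G s r e) ∧
    ∀ (d : ℕ) (G : MvPolynomial (Fin (n + 1)) ℂ), OdeIn S G 1 2 d → RatIn S G d :=
  ⟨ode_special S hS, fun _ _ => ratIn_of_odeIn⟩

end Pool.Agent.Results.MP_160ed4_ag.BoundedSpecialSets
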