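import Pool.Agent.Q309.FE.Star

set_option autoImplicit false

/-!
# Special sets of quasi-projective varieties and curves given by linear functional equations

Let `X` be the quasi-projective variety `F = 0`, `Q ≠ 0` in projective space (any projective variety
for `Q = 1`), and let `Sp_m(X)` be the Zariski closure of the union of the images of all nonconstant
morphisms from the multiplicative group to `X`; it is contained in `Sp_sab(X)`. A form `G` vanishes on
`Sp_m(X)` if and only if `GmZero F Q G`. We consider holomorphic maps `f` to `X` the homogeneous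
coordinates of which satisfy linear functional equations `∑ a_k (z) g (σ^k z) = 0`, such that
moreover `Q ∘ f` satisfies an equation of order one (this is trivial for `Q = 1`; for affine
varieties it can be achieved by the choice of the homogeneous coordinates).

(1) Let `σ` be a holomorphic map from a domain `Ω` to itself with an orbit of infinitely many
different points in a compact subset of `Ω`, and let `S` be an algebra of holomorphic functions on
`Ω`, closed under composition with `σ`. If the coefficients of the equations of `f : Ω → X` are in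
`S`, then `f(Ω)` is contained in `Sp_m(X)`, or for all rational functions `r` on projective space,
regular at a point of `f`, some function `r ∘ f ∘ σ^s` is algebraic over `S`.

(2) Let `q` be a nonzero complex number which is not a root of unity and let `S` be an algebra of
entire functions which is closed under the substitutions `z ↦ c z` (for instance the entire functions
of order at most `lam`). Let `f : ℂ → X` be given by `q`-difference equations with coefficients in
`S`. Then `f(ℂ)` is contained in `Sp_m(X)`, or the quotients of the coordinates are algebraic over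
`S`.

(3) All nonconstant entire curves in `X` with entire homogeneous coordinates without common zeros
which satisfy `q`-difference equations with polynomial coefficients are contained in `Sp_m(X)`. For
`|q| ≠ 1` nothing is supposed about `Q ∘ f`.

(4) Let `|q| = 1`. All holomorphic maps from the punctured unit disc to `X` with an essential
singularity at the origin (as in the definition of `Sp_p(X)`), given by `q`-difference equations with
coefficients which are meromorphic at the origin, have their image in `Sp_m(X)`.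

(5) Let `|q| = 1`. The Zariski closure of the union of the images of all nonconstant holomorphic maps
from the punctured plane to `X` which are given by `q`-difference equations with Laurent polynomials
as coefficients is EQUAL to `Sp_m(X)`. Composed with the exponential function these maps are entire
curves, as in the definition of `Sp_h(X)`, given by difference equations.
-/

namespace Pool.Agent.Results.MP_160ed4_ag.FunctionalEquationSpecialSets

open MvPolynomial Set Metric
open Pool.Agent.TH143 (On IsGmCurve)
open Pool.Agent.W602.GT (IsForm)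
open Pool.Agent.TH8.QD (Stable RelCpt FunEq FunHyp AlgQ Dil QHol QHyp)
open Pool.Agent.Q309.FE

theorem result {N : ℕ} {ι : Type} (F : ι → MvPolynomial (Fin (N + 1)) ℂ)
    (hF : ∀ i, ∃ d, (F i).IsHomogeneous d) (Q : MvPolynomial (Fin (N + 1)) ℂ) {e : ℕ}
    (hQ : Q.IsHomogeneous e) (G : MvPolynomial (Fin (N + 1)) ℂ) (hG : IsForm G) :
    (GmZero F Q G →
      (∀ (Ω : Set ℂ) (σ : ℂ → ℂ) (S : Subalgebra ℂ (ℂ → ℂ)) (z0 : ℂ), IsPreconnected Ω →
        AnalyticOnNhd ℂ σ Ω → MapsTo σ Ω Ω → Stable Ω σ S → RelCpt Ω (fun m => σ^[m] z0) →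
        ∀ f : ℂ → Fin (N + 1) → ℂ, (∀ j, AnalyticOnNhd ℂ (fun z => f z j) Ω) →
          (∀ z ∈ Ω, f z ≠ 0) → (∀ z ∈ Ω, On F Q (f z)) →
          (∀ j, FunEq Ω σ S (fun z => f z j)) → FunHyp Ω σ S (fun z => eval (f z) Q) →
          (∀ z ∈ Ω, eval (f z) G = 0) ∨
          ∀ (D : ℕ) (g0 g1 : MvPolynomial (Fin (N + 1)) ℂ), g0.IsHomogeneous D →
            g1.IsHomogeneous D → (∃ z ∈ Ω, eval (f z) g0 ≠ 0) →
            ∃ s : ℕ, AlgQ Ω S (fun z => eval (f (σ^[s] z)) g1) (fun z => eval (f (σ^[s] z)) g0)) ∧
      (∀ q : ℂ, q ≠ 0 → (∀ m : ℕ, 0 < m → q ^ m ≠ 1) →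
        (∀ S : Subalgebra ℂ (ℂ → ℂ), Dil S →
          ∀ f : ℂ → Fin (N + 1) → ℂ, (∀ j, Differentiable ℂ (fun z => f z j)) →
            (∀ z, On F Q (f z)) → (∀ j, FunEq univ (fun z => q * z) S (fun z => f z j)) →
            FunHyp univ (fun z => q * z) S (fun z => eval (f z) Q) →
            (∀ z, eval (f z) G = 0) ∨ ∀ j k, (∃ z, f z k ≠ 0) →
              AlgQ univ S (fun z => f z j) (fun z => f z k)) ∧
        (∀ f : ℂ → Fin (N + 1) → ℂ, (∀ j, Differentiable ℂ (fun z => f z j)) →
          (∀ z, f z ≠ 0) → (∀ z, On F Q (f z)) →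
          (∃ z w j k, f z j * f w k ≠ f z k * f w j) → (∀ j, QHol q (fun z => f z j)) →
          (‖q‖ ≠ 1 ∨ QHyp q (fun z => eval (f z) Q)) → ∀ z, eval (f z) G = 0) ∧
        (‖q‖ = 1 → ∀ f, DiscCurve F Q q f → ∀ z : ℂ, z ≠ 0 → ‖z‖ < 1 → eval (f z) G = 0))) ∧
    (∀ q : ℂ, ‖q‖ = 1 → (∀ m : ℕ, 0 < m → q ^ m ≠ 1) →
      ((∀ f, StarCurve F Q q f → ∀ z : ℂ, z ≠ 0 → eval (f z) G = 0) ↔ GmZero F Q G)) := by
  refine ⟨fun hGm => ⟨?_, fun q hq0 hqr => ⟨?_, ?_, ?_⟩⟩, fun q hq1 hqr => ⟨?_, ?_⟩⟩
  · intro Ω σ S z0 hΩ hσa hσm hS hz f hf hne hX hfe hfQ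
    by_cases hcon : ∀ z ∈ Ω, eval (f z) G = 0
    · exact Or.inl hcon
    · push Not at hcon
      obtain ⟨z, hz1, hz2⟩ := hcon
      exact Or.inr fun D g0 g1 hg0 hg1 hn => fe_main hΩ hσa hσm hS hz
        (fun m => Function.iterate_succ_apply' σ m z0) hF hQ hf ⟨z, hz1, hne z hz1⟩
        (fun x hx => (hX x hx).1) ⟨z, hz1, (hX z hz1).2⟩ hfe hfQ hG hGm ⟨z, hz1, hz2⟩ hg0 hg1 hn
  · intro S hS f hf hX hfe hfQ
    by_cases hcon : ∀ z, eval (f z) G = 0
    · exact Or.inl hcon
    · push Not at hcon
      exact Or.inr fun j k hk => dil_main hS hq0 hqr hF hQ hf (fun x => (hX x).1)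
        ⟨0, (hX 0).2⟩ hfe hfQ hG hGm hcon hk
  · intro f hf hne hX hnc hfe hq z
    exact ent_main hq0 hqr hF hQ hf hne hX hnc hfe hq hG hGm z
  · intro hq1 f hf z hz hz1
    exact disc_main hq1 hqr hF hQ hf hG hGm ⟨hz, hz1⟩
  · intro h P hP t ht
    exact h _ (star_of_gm hP q) t ht
  · intro hGm f hf z hz
    exact star_main hq1 hqr hF hQ hf hG hGm hz

end Pool.Agent.Results.MP_160ed4_ag.FunctionalEquationSpecialSets
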