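import Pool.Agent.W619.X.Fin

/-!
# Quotients of products of open curves: log general type and the special subsets

Let `Z` be a variety with a generically finite map to a product of `n` curves `C i`, `G` a finite
group of automorphisms of its function field which preserves the function fields of the curves, `B i`
a finite set of points of `C i / G`, and `U` a smooth quasi-projective variety birational to `Z / G`
whose boundary is given by the places over the points of the `B i`. Let `C° i` be `C i` minus the
preimage of `B i`, and assume `LogPosCond`. If all `C° i` are of log general type, then so is `U`. If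
`Z` is birational to the product of the curves, this is an equivalence; and if `U` is not of log
general type, then it is covered by images of an open curve `E°`, which is an elliptic curve or the
projective line minus at most two points: there is a dominant rational map `Y × E° ⇢ U`,
`dim Y = dim U - 1`, which is a morphism on the generic fibre over `Y`. So there are nonconstant
morphisms to `U` from an elliptic curve or from the multiplicative group through a general point of
`U`, and the four special subsets of `U` are all equal to `U`: the conditions (2), (3), (4), (5) of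
the problem each imply the condition (1) for these varieties.
-/

set_option autoImplicit false
set_option linter.overlappingInstances false

universe u v

open FF IntermediateField Pool.Agent.W619.PQ Pool.Agent.W619.PL Pool.Agent.W619.TW
  Pool.Agent.W619.X

namespace Pool.Agent.Results.MP_160ed4_ag.OpenProductQuotients

section

variable {k : Type u} {K : Type v} [Field k] [Field K] [Algebra k K]

theorem sec_mono {n : ℕ} {Bd : Place k K → Prop} {m : ℕ} {ω : (Fin n → Derivation k K K) → K}
    (h : IsSec k K n Bd {1} m 0 ω) : IsSec k K n Bd {1} m 1 ω := by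
  have hD : ∀ (w : Place k K) (f : K), Dom w {1} 0 f → Dom w {1} 1 f := by
    rintro w f (h1 | ⟨s, hs, hs0, h1⟩)
    · exact Or.inl h1
    · refine Or.inr ⟨s, hs, hs0, ?_⟩
      rw [Finset.mem_singleton] at hs
      subst hs
      rw [w.ord_one] at h1 ⊢
      simpa using h1
  exact ⟨h.1, fun w hw hb D hd => hD w _ (h.2.1 w hw hb D hd),
    fun w hw hb D hd => hD w _ (h.2.2 w hw hb D hd)⟩

/-- `κ ≥ a` and `ν ≤ b` imply `a ≤ b`. -/
theorem kod_le_num {n a b : ℕ} {Bd : Place k K → Prop} (h1 : KodGe k K n Bd a)
    (h2 : NumLe k K n Bd b) : a ≤ b := by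
  by_contra hlt
  push Not at hlt
  obtain ⟨m, hm, h3⟩ := h1
  obtain ⟨C, hC⟩ := h2 {1}
  have key : ∀ j : ℕ, 1 ≤ j → j ≤ C * m ^ b := by
    intro j hj
    obtain ⟨ω, hω, hs⟩ := h3 j hj
    have h4 := hC (j * m) _ (Nat.one_le_iff_ne_zero.2 (mul_ne_zero (by omega) (by omega)))
      ⟨ω, hω, fun l => sec_mono (hs l)⟩
    have h5 : j ^ (b + 1) ≤ j ^ a := Nat.pow_le_pow_right hj hlt
    have h6 : j ^ b * j ≤ j ^ b * (C * m ^ b) := by
      calc j ^ b * j = j ^ (b + 1) := (pow_succ _ _).symm
        _ ≤ C * (j * m) ^ b := h5.trans h4
        _ = j ^ b * (C * m ^ b) := by rw [mul_pow]; ring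
    exact Nat.le_of_mul_le_mul_left h6 (Nat.pow_pos hj)
  have := key (C * m ^ b + 1) (by omega)
  omega

/-- `ν = -∞` implies `κ = -∞`. -/
theorem not_kod_of_neg {n a : ℕ} {Bd : Place k K → Prop} (h : NumNeg k K n Bd) :
    ¬ KodGe k K n Bd a := by
  rintro ⟨m, hm, h3⟩
  obtain ⟨m0, h4⟩ := h {1}
  obtain ⟨ω, hω, hs⟩ := h3 (m0 + 1) (by omega)
  have hpos : 0 < (m0 + 1) ^ a := Nat.pow_pos (by omega)
  refine h4 ((m0 + 1) * m) ?_ ⟨fun _ => ω ⟨0, hpos⟩, ?_, fun _ => sec_mono (hs _)⟩
  · calc m0 ≤ (m0 + 1) * 1 := by omega
      _ ≤ (m0 + 1) * m := Nat.mul_le_mul_left _ hm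
  · exact LinearIndependent.of_subsingleton (0 : Fin 1) (hω.ne_zero _)

end

/-- Let `Z` be a variety of dimension `n` with function field `L`, `F i` (`i < n`) the function
fields of curves `C i` with rational maps `Z → C i` such that `Z → ∏ C i` is generically finite
(`halg`), `G` a finite group of automorphisms of `L` preserving each `F i`, and `B i` a finite set
of points of `C i / G`. Consider the places of the function field of `Z / G` which are over a point
of `B i` for some `i` as the boundary. The open curve `C° i`, which is `C i` minus the preimage of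
`B i`, is of log general type if and only if it is neither negative (the projective line or the affine
line) nor flat (an elliptic curve or the projective line minus two points). Assume `LogPosCond`, for
instance that each `g ≠ 1` in `G` moves at least `7` of the curves, or that each `g ≠ 1` moves at
least `2` of the curves and each `C i / G` is irrational or has at least `5` branch points.

(1) If all `C° i` are of log general type, then `Z / G` minus the boundary is of log general type.
(2) If `Z` is birational to the product of the curves, then `Z / G` minus the boundary is of log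
general type if and only if all `C° i` are of log general type; otherwise it is covered by images of
an open curve which is not of log general type (`IsLowCovered`). -/
theorem result {L : Type u} [Field L] [Algebra ℂ L] (n : ℕ) (hn : Algebra.trdeg ℂ L = n)
    (F : Fin n → IntermediateField ℂ L) (hF : ∀ i, IsFF ℂ (F i))
    (halg : Algebra.IsAlgebraic ↥(⨆ i, F i) L)
    (G : Subgroup (L ≃ₐ[ℂ] L)) [Finite G] (hst : ∀ i, ∀ g ∈ G, ∀ z ∈ F i, g z ∈ F i)
    (B : ∀ i, Set (Place ℂ ↥(F i ⊓ fixedField G))) (hB : ∀ i, (B i).Finite)
    (h : LogPosCond G F B) :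
    ((∀ i, ¬ IsNegative inf_le_left (B i) ∧ ¬ IsFlat inf_le_left (B i)) →
      KodGe ℂ (fixedField G) n (QBd F G B) n) ∧
    ((⨆ i, F i = ⊤) →
      (KodGe ℂ (fixedField G) n (QBd F G B) n ↔
        ∀ i, ¬ IsNegative inf_le_left (B i) ∧ ¬ IsFlat inf_le_left (B i)) ∧
      (¬ KodGe ℂ (fixedField G) n (QBd F G B) n →
        IsLowCovered ℂ (fixedField G) n (QBd F G B))) := by
  obtain ⟨h1, h2⟩ := gtL n hn F hF halg G hst B hB h
  refine ⟨h1, fun hsup => ⟨⟨fun hk => ?_, h1⟩, fun hk => ?_⟩⟩
  · obtain ⟨h3, h4⟩ := knL n hn F hF halg G hst B hB h
    have hneg : ∀ i, ¬ IsNegative inf_le_left (B i) := by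
      by_contra hcon
      push Not at hcon
      exact not_kod_of_neg (h4 hsup hcon) hk
    refine fun i => ⟨hneg i, fun hi => ?_⟩
    have h5 := kod_le_num hk ((h3 hneg).2 hsup)
    have h6 : {i | ¬ IsFlat inf_le_left (B i)}.ncard < (Set.univ : Set (Fin n)).ncard := by
      refine Set.ncard_lt_ncard ?_ (Set.toFinite _)
      rw [Set.ssubset_univ_iff]
      intro h7
      have h8 : i ∈ {i | ¬ IsFlat inf_le_left (B i)} := by
        rw [h7]
        exact Set.mem_univ i
      exact h8 hi
    rw [Set.ncard_univ, Nat.card_eq_fintype_card, Fintype.card_fin] at h6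
    omega
  · refine h2 hsup ?_
    by_contra hcon
    push Not at hcon
    exact hk (h1 hcon)

end Pool.Agent.Results.MP_160ed4_ag.OpenProductQuotients
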